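import Pool.Agent.H614.KL.Main

/-!
# Abundance for klt pairs which are images under maps of small degree

Let `(W, Δ)` be a projective pair of dimension `n`, with a normal variety `W` and a `ℚ`-divisor `Δ ≥ 0`,
for instance a klt pair. Let `f : V → W` be a finite covering (or a dominant rational map of finite
degree, and `V` the normalisation of `W` in its function field), and `V ⇢ Y` a rational map onto a variety
`Y` of dimension `d` in projective space, with `H` the pull-back of the hyperplane class. Suppose that,
for some `r ≥ 1`, some section of

  `K_V + f^* (⌊r (K_W + Δ)⌋ - K_W) - m H`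

has nonzero trace to the image `W'` of `V` in `W × Y`, and that the degree of `W'` over `W` is at most `m`.
(If `V` is birational to `W'`, the conditions say that there is a nonzero section, and `deg f ≤ m`.)

Then `κ(W, K_W + Δ) ≥ d - 1`. If `Y` is not covered by lines, or if the degree is at most `(m + 1) / 2`,
then `κ(W, K_W + Δ) ≥ d`; if moreover `ν(V, f^* (K_W + Δ)) ≤ d` (for instance, if `f^* (K_W + Δ)` is
numerically trivial on the general fibre of `V ⇢ Y`), then

  `κ(W, K_W + Δ) = ν(W, K_W + Δ) = d`.

For klt pairs with `K_W + Δ` nef this implies that `K_W + Δ` is semiample (Kawamata, Nakayama, Fujino;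
cited, not formalised).

Example: let `D ⊂ W` be a reduced divisor which contains the branch divisor of `f`, `Δ = (1 - 1/r) D`, and
`D_V` the reduced preimage of `D`. Then `K_V + f^* (r (K_W + Δ) - K_W) = r (K_V + (1 - 1/r) D_V)`, so the
condition says that `r (K_V + (1 - 1/r) D_V) - m H` has a section as above. The bound `m` for the degree
is sharp for all `r ≥ 2` for which `r - 1` divides `n + 1`: let `b = r (n + 1) / (r - 1)`, `W` the
projective space, `D` a smooth hypersurface of degree `b`, and `V` the cyclic covering of degree `b`
branched along `D`, a smooth hypersurface of degree `b` in projective `(n + 1)`-space. Then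
`r (K_V + (1 - 1/r) D_V) = (b - 1) H`, so that `m = b - 1`, and the degree is `m + 1`, but
`K_W + Δ = 0`. (These remarks are not part of the Lean statement.)

For `Δ = 0` and `r = 1` the bounds for `κ` are those of `MP_fa3f7f_ag.ImagesOfDegreeAtMostM`. The point
here are the fractional boundaries `Δ`, the adjoint classes with `r ≥ 2` and the singularities of `W`, and
the conclusion, in terms of the literal definitions of the Kodaira and of the numerical dimension.

Proof: the traces on `W` of the forms `A(x) ω`, where `A` is a polynomial of degree `m`, are sections of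
`r (K_W + Δ)`. If a vector field on `W` respects their ratios and moves the conjugates `x_1, …, x_s` of
the generic point `x` of `Y` over `W`, then the points `x_i` with their tangent vectors satisfy a
Cayley–Bacharach condition for the forms of degree `m`, and since `2 s ≤ 2 m`, they and the tangent
vectors are on one line. This line is constant along all such vector fields, hence algebraic over the
field of the ratios, and it is contained in `Y`.

The literal definitions of the starting repository (`Pool/Agent/Y172/Defs.lean`) are used: `y` is the
generic point of `W` (`NormalModel`), the prime divisors of `W` are the places `P` of its function field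
`L` with `IsPrimeDivisor y P`, a `ℚ`-divisor is a function `Δ` of the places (`Effective`: `Δ ≥ 0`, finite
support), `kodairaDim y n Δ` is the Kodaira dimension of `K_W + Δ`, defined by the growth of
`h⁰(m (K_W + Δ))`, and `numericalDim y n Δ A` is its numerical dimension with respect to `A`, defined by
the growth of `h⁰(m (K_W + Δ) + A)`. `K` is the function field of `V`, and `Over Q P e` says that the
place `Q` of `K` lies over `P` with ramification index `e`. The prime divisors of the normalisation `V`
of `W` in `K` are the places `Q` over the prime divisors `P` of `W`.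
-/

set_option autoImplicit false
set_option linter.overlappingInstances false

open FF Pool.Agent.W602.GT Pool.Agent.Y172

namespace Pool.Agent.Results.MP_e23cd6_ag.ImagesOfSmallDegree

section

variable {K : Type} [Field K] [Algebra ℂ K] {n N : ℕ}

/-- `K` is the function field of a variety `V` of dimension `n`, and `x` is the generic point of a
variety `Y` of dimension `d` in projective space with `N` homogeneous coordinates (one of them is
normalised to `1`), the image of `V` under a rational map; the function field of `Y` is `ℂ(x)`. -/
structure IsMap (n d : ℕ) (x : Fin N → K) : Prop where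
  ess : Algebra.EssFiniteType ℂ K
  dim : Algebra.trdeg ℂ K = n
  one : ∃ j, x j = 1
  image : Algebra.trdeg ℂ (IntermediateField.adjoin ℂ (Set.range x)) = d

/-- The trace of the `r`-canonical form `ω` to the variety with the function field `F` is not zero. The
value of the trace of `ω` on vector fields `D i` of `F` is the trace of the value of `ω` on the
extensions `D' i` of the `D i` to `K`. -/
def TraceNe (ω : (Fin n → Derivation ℂ K K) → K) (F : IntermediateField ℂ K) : Prop :=
  ∃ (D : Fin n → Derivation ℂ F F) (D' : Fin n → Derivation ℂ K K),
    (∀ i f, D' i (algebraMap F K f) = algebraMap F K (D i f)) ∧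
    Algebra.trace F K (ω D') ≠ 0

/-- `Y` is covered by lines: for some variety `B`, with function field `M`, there is a family over `B`
of lines in projective space, the lines through the points `a` and `b` over `M`, such that the
generic point `a + T b` of the total space of the family is mapped to the generic point `x` of `Y`,
that is, exactly the equations of `Y` vanish at `a + T b`. -/
def CoveredByLines (x : Fin N → K) : Prop :=
  ∃ (M : Type) (_ : Field M) (_ : Algebra ℂ M) (a b : Fin N → M),
    Algebra.EssFiniteType ℂ M ∧ LinearIndependent M ![a, b] ∧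
    ∀ F : MvPolynomial (Fin N) ℂ, MvPolynomial.aeval x F = 0 ↔
      MvPolynomial.aeval (fun j => Polynomial.C (a j) + Polynomial.X * Polynomial.C (b j)) F = 0

end

section

variable {K L : Type} [Field K] [Algebra ℂ K] [Field L] [Algebra ℂ L] [Algebra L K] {n N M : ℕ}

/-- `ω` is a section of `K_V + f^* (⌊r (K_W + Δ)⌋ - K_W) - m H`, where `H` is the pull-back of the
hyperplane class of `Y`. For the `r`-canonical forms on `V` the class is
`r K_V - (r - 1) R + f^* ⌊r Δ⌋ - m H`, where `R` is the ramification divisor: the order of the products
`A(x) ω` at a prime divisor `Q` of `V` over the prime divisor `P` of `W`, with ramification index `e`, is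
at least `(r - 1) (e - 1) - e ⌊r Δ P⌋`, for all monomials (hence for all forms) `A` of degree `m`. -/
def AdjointSection (y : Fin (M + 1) → L) (Δ : Place ℂ L → ℚ) (r m : ℕ) (x : Fin N → K)
    (ω : (Fin n → Derivation ℂ K K) → K) : Prop :=
  IsPluri r ω ∧ ∀ (P : Place ℂ L), IsPrimeDivisor y P → ∀ (Q : Place ℂ K) (e : ℕ), Over Q P e →
    ∀ (f : Fin m → Fin N) (D : Fin n → Derivation ℂ K K), (∀ i, DerReg Q (D i)) →
      (∏ k, x (f k)) * ω D = 0 ∨
        ((r : ℤ) - 1) * ((e : ℤ) - 1) - e * ⌊r * Δ P⌋ ≤ Q.ord ((∏ k, x (f k)) * ω D)

/-- `κ(K_W + Δ) ≥ e`: for some `m ≥ 1` there are `e + 1` sections of `m (K_W + Δ)` with algebraically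
independent ratios. -/
def KodairaGe (y : Fin (M + 1) → L) (n : ℕ) (Δ : Place ℂ L → ℚ) (e : ℕ) : Prop :=
  ∃ m : ℕ, 1 ≤ m ∧ ∃ ω : Fin (e + 1) → (Fin n → Derivation ℂ L L) → L,
    (∀ j, IsSection y n m (m • Δ) (ω j)) ∧
    ∃ E, ω 0 E ≠ 0 ∧ AlgebraicIndependent ℂ (fun i : Fin e => ω i.succ E / ω 0 E)

/-- `ν(V, f^* (K_W + Δ)) ≤ d`: for each effective divisor `A` on `W` there is `C` such that
`h⁰(V, f^* (m (K_W + Δ) + A)) ≤ C m ^ d` for all `m ≥ 1`. The sections are `m`-canonical forms `θ` on
`V`; since `f^* (K_W + Δ) = K_V + f^* Δ - R`, where `R` is the ramification divisor, their order at a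
prime divisor `Q` of `V` over the prime divisor `P` of `W` is at least
`- (m (e Δ P - (e - 1)) + e A P)`. -/
def NumericalLe (K : Type) [Field K] [Algebra ℂ K] [Algebra L K] (y : Fin (M + 1) → L) (n : ℕ)
    (Δ : Place ℂ L → ℚ) (d : ℕ) : Prop :=
  ∀ A : Place ℂ L → ℚ, Effective y A → ∃ C : ℕ, ∀ m s : ℕ, 1 ≤ m →
    ∀ θ : Fin s → (Fin n → Derivation ℂ K K) → K, LinearIndependent ℂ θ →
      (∀ l, IsPluri m (θ l) ∧ ∀ (P : Place ℂ L), IsPrimeDivisor y P → ∀ (Q : Place ℂ K) (e : ℕ),
        Over Q P e → OrdGe Q (θ l) (-(m * (e * Δ P - (e - 1)) + e * A P))) → s ≤ C * m ^ d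

end

/-- **Abundance for images under maps of small degree.** Let `W` be a normal projective variety of
dimension `n` with generic point `y` and function field `L`, `Δ` an effective `ℚ`-divisor on `W`,
`f : V → W` a finite covering with function field `K`, and `V ⇢ Y` a rational map onto a variety of
dimension `d` with generic point `x`. If, for some `r ≥ 1`, some section of
`K_V + f^* (⌊r (K_W + Δ)⌋ - K_W) - m H` has nonzero trace to `L(x)`, and `[L(x) : L] ≤ m`, then
`κ(K_W + Δ) ≥ d - 1`. If moreover `Y` is not covered by lines, or `2 [L(x) : L] ≤ m + 1`, then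
`κ(K_W + Δ) ≥ d`, and if `ν(f^* (K_W + Δ)) ≤ d`, then the Kodaira dimension and the numerical dimension
of `K_W + Δ` are both equal to `d`. -/
theorem result {n d m r N M : ℕ} {K : Type} [Field K] [Algebra ℂ K] {x : Fin N → K}
    (hx : IsMap n d x) (L : Type) [Field L] [Algebra ℂ L] [Algebra L K] [IsScalarTower ℂ L K]
    [FiniteDimensional L K] {y : Fin (M + 1) → L} (hy : NormalModel y) {Δ : Place ℂ L → ℚ}
    (hΔ : Effective y Δ) (hr : 1 ≤ r) {ω : (Fin n → Derivation ℂ K K) → K}
    (hω : AdjointSection y Δ r m x ω)
    (htr : TraceNe ω ((IntermediateField.adjoin L (Set.range x)).restrictScalars ℂ))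
    (hdeg : Module.finrank L (IntermediateField.adjoin L (Set.range x)) ≤ m) :
    KodairaGe y n Δ (d - 1) ∧
    (¬ CoveredByLines x ∨
        2 * Module.finrank L (IntermediateField.adjoin L (Set.range x)) ≤ m + 1 →
      KodairaGe y n Δ d ∧
      (NumericalLe K y n Δ d →
        kodairaDim y n Δ = (d : WithBot ℕ) ∧
          ∀ A, Effective y A → Integral y A → numericalDim y n Δ A = (d : EReal))) := by
  have hess : Algebra.EssFiniteType ℂ K := hx.ess
  exact Pool.Agent.H614.KL.main hx.dim hx.one hx.image hy hΔ hr hω htr hdeg

end Pool.Agent.Results.MP_e23cd6_ag.ImagesOfSmallDegree
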